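import Pool.Agent.K6.H7.UO.Nd

set_option autoImplicit false

/-! # Stably nondegenerate polynomials -/

namespace Pool.Agent.K6.H7.UO

open MvPolynomial
open Pool.Agent.H628R4.TP Pool.Agent.W425.MM
open Pool.Agent.W425.ND (spa prodb prodb_eval)
open Pool.Agent.W426.SM (gord IsRay face)
open Pool.Agent.W803.SM (gord_le exists_gord)
open Pool.Agent.W425.SV (RelV Kil1)
open Pool.Agent.W425.SG (UnitEq isLocal)
open Pool.Agent.TH216.HD hiding IsRay
open Pool.Agent.TH216.HDNL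
open Pool.Agent.TH216.MC (HB)
open Pool.Agent.TH216.MF (RelG KilU)
open Pool.Agent.W428.MOT (sp zetaMu ratRingMu)
open Pool.Agent.Y229.CF
open Pool.Agent.Y228.GN
open Pool.Agent.Y228.ND4
open Pool.Agent.Y231.N4
open Pool.Agent.TH216.ND
open Pool.Agent.Y229.MS (exyz cyz addyz itr stabK shn spa_addyz cyz_map)
open Pool.Agent.K6.H7.UE
open Pool.Agent.K6.H7.UG (bf_neg_one)
open Pool.Agent.K6.H7.UF (ray_exyz fx ay az tot exyz_inj exyz_ne bf_itr bf_iso' gph ray_pos')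

variable {r N : ℕ}

/-- the relation of the vertices -/
theorem relP (hr : 0 < r) (v : Fin r → Fin N → ℕ) (hv : Function.Injective v)
    (hv0 : ∀ j, v j ≠ 0) (c : Fin r → ℂ) (hnd : NondegC v c) (V : Finset (Fin r))
    (hV : Spans v V) :
    ∀ α, ¬ PW True (spa v c) α → ∃ (θ : Fin V.card → ℤ) (p : Polynomial ℂ),
      RelG (vV v V) (Kil1 (vV v V)) (KilU (vV v V) θ) p ∧ p.eval (α : ℂ) ≠ 0 := by
  classical
  have hne : NeZero r := ⟨by omega⟩
  intro α hα
  unfold PW at hα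
  push Not at hα
  obtain ⟨b, hb1, hb, hroot⟩ := hα
  obtain ⟨K, L, hK⟩ := relV_all v _ hv hv0 hnd b hb
  obtain ⟨θ, hθ⟩ := rel_vV v V hV True (prodb b K * dL L) hK
  refine ⟨θ, prodb b K * dL L, hθ, ?_⟩
  rw [Polynomial.eval_mul, prodb_eval]
  refine mul_ne_zero (Finset.prod_ne_zero_iff.2 fun i _ => ?_) (dL_ne _ _ fun t ht => ?_)
  · exact_mod_cast hroot (i : ℤ)
  · apply hroot ((t : ℤ) + 1)
    rw [← hb1]
    congr 1
    have h1 : (α : ℂ) = t := ht
    rw [h1]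
    push_cast
    ring

/-- integers and non-B1 facets -/
theorem pw_of (hr : 0 < r) (v : Fin r → Fin N → ℕ) (hv : Function.Injective v)
    (hv0 : ∀ j, v j ≠ 0) (c : Fin r → ℂ) (hnd : NondegC v c) (a : Fin N → ℕ) (hg : 0 < gord v a)
    (h : gord v a ∣ ∑ i, a i ∨ ∃ a' : Fin N → ℕ, 0 < gord v a' ∧ NonB1 v True a' ∧
      ∃ z : ℤ, lev v a = lev v a' + z) :
    PW True (spa v c) (-(((∑ i, a i : ℕ) : ℚ) / gord v a)) := by
  classical
  have hne : NeZero r := ⟨by omega⟩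
  have hgC : ((gord v a : ℕ) : ℂ) ≠ 0 := by exact_mod_cast hg.ne'
  rcases h with ⟨t, ht⟩ | ⟨a', hg', hN, z, hz⟩
  · intro b hb1 _
    have ht' : ∑ i, a i = gord v a * t := ht
    refine ⟨-(t : ℤ) + 1, ?_⟩
    have h1 : ((-(((∑ i, a i : ℕ) : ℚ) / gord v a) : ℚ) : ℂ) -
        ((-(t : ℤ) + 1 : ℤ) : ℂ) = -1 := by
      rw [ht']
      push_cast
      field_simp
      ring
    rw [h1, hb1]
  · intro b hb1 hU
    obtain ⟨K, L, hK⟩ := relV_all v _ hv hv0 hnd b hU
    have h1 := a5 v True (prodb b K * dL L) hK a' hg' hN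
    rw [Polynomial.eval_mul, mul_eq_zero] at h1
    have h1 := h1.resolve_right (dL_neg v a' L hg')
    rw [prodb_eval, Finset.prod_eq_zero_iff] at h1
    obtain ⟨i, -, hi⟩ := h1
    refine ⟨(i : ℤ) - z, ?_⟩
    have h2 : ((∑ i, a i : ℕ) : ℂ) / gord v a = ((∑ i, a' i : ℕ) : ℂ) / gord v a' + z := by
      have := congrArg (fun q : ℚ => (q : ℂ)) hz
      unfold lev at this
      push_cast at this ⊢
      exact this
    have h3 : ((-(((∑ i, a i : ℕ) : ℚ) / gord v a) : ℚ) : ℂ) -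
        (((i : ℤ) - z : ℤ) : ℂ) = -(((∑ i, a' i : ℕ) : ℂ) / gord v a') - i := by
      push_cast at h2 ⊢
      rw [h2]
      ring
    rw [h3]
    exact hi

/-- one polynomial -/
theorem fourN {k : Type} [Field k] [Algebra k ℂ] (hr : 0 < r)
    (v : Fin r → Fin N → ℕ) (hv : Function.Injective v) (hv0 : ∀ j, v j ≠ 0) (c : Fin r → k)
    (hc : ∀ j, c j ≠ 0) (hnd : NondegP v (fun j => algebraMap k ℂ (c j)))
    (V : Finset (Fin r)) (hV : Spans v V) (hG : GlobW v V) :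
    ∃ S : Finset (ℤ × ℤ),
      (∀ p ∈ S, ∃ a : Fin N → ℕ, IsRay v a ∧ 0 < gord v a ∧
        (LocVL v V (((∑ i, a i : ℕ) : ℚ) / gord v a) →
          PW True (spa v (fun j => algebraMap k ℂ (c j)))
            (-(((∑ i, a i : ℕ) : ℚ) / gord v a))) ∧
        p = (-((∑ i, a i : ℕ) : ℤ), (gord v a : ℤ))) ∧
      InE (spa v c) S := by
  classical
  have hkc : CharZero k := RingHom.charZero (algebraMap k ℂ)
  have hP := relP hr v hv hv0 _ hnd.compact V hV
  have hB : HB v fun σ => LocVL v V σ ∧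
      ¬ PW True (spa v (fun j => algebraMap k ℂ (c j))) (-σ) :=
    fun J q hq e he T0 hT0 σ hσ hlog => hbN hr v hv V hV _ hP J
      (fun hJ hvan j hj i hi hj1 l hl => hG J hJ hvan j hj l hl ⟨i, hi, hj1⟩)
      q hq e he T0 hT0 σ hσ hlog
  obtain ⟨S, hS, hz⟩ := fourE v hr _ hB
  refine ⟨S, fun p hp => ?_, ?_⟩
  · obtain ⟨a, ha, hg, hn, rfl⟩ := hS p hp
    refine ⟨a, ha, hg, fun hL => ?_, rfl⟩
    by_contra hcon
    exact hn ⟨hL, hcon⟩
  · have hspa : spa v c = sp 0 v c 1 := by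
      unfold sp spa
      simp
    rw [hspa]
    have h1 := nonG_P k k v c hr hnd
    simp only [Algebra.algebraMap_self, RingHom.id_apply] at h1
    exact hz k c h1 hc

/-- the functional equation with the Weyl algebra -/
theorem unit_of (hr : 1 ≤ r) (v : Fin r → Fin N → ℕ) (hv : Function.Injective v)
    (hv0 : ∀ j, v j ≠ 0) (a : Fin r → ℂ) (hnd : NondegC v a) (b : Polynomial ℂ)
    (hb : IsBFunction (spa v a) b) : UnitEq True (spa v a) b := by
  have : NeZero r := ⟨by omega⟩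
  obtain ⟨h1, c, P, hc, hP⟩ := Pool.Agent.W368.SL.taskL1 (spa v a) b
    (spa_ne_zero' hv a hnd) (Pool.Agent.W425.ND.spa_const v hv0 a) (isLocal hb)
  exact ⟨c, P, hc, fun h => absurd trivial h, hP⟩

/-- the roots modulo the integers -/
def RZ {k : Type} [Field k] [Algebra k ℂ] {n : ℕ} (f : MvPolynomial (Fin n) k) (q : ℂ) : Prop :=
  ∀ b : Polynomial ℂ, IsBFunction (map (algebraMap k ℂ) f) b → ∃ i : ℤ, b.eval (q - i) = 0

theorem rz_of_pw {k : Type} [Field k] [Algebra k ℂ] {n M : ℕ} {f : MvPolynomial (Fin n) k}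
    (hf : f.totalDegree ≠ 0) {G : MvPolynomial (Fin M) ℂ} (m : ℕ)
    (hG : ∀ c' : Polynomial ℂ,
      IsBFunction (map (algebraMap k ℂ) f) ((Polynomial.X + 1) * c') →
      UnitEq True G ((Polynomial.X + 1) * c'.comp (Polynomial.X + Polynomial.C (m : ℂ))))
    (α : ℚ) (hα : PW True G α) : RZ f ((α : ℂ) + m) := by
  intro b hb
  have h5 := bf_neg_one hf hb
  obtain ⟨c', rfl⟩ : (Polynomial.X + 1 : Polynomial ℂ) ∣ b := by
    have := Polynomial.dvd_iff_isRoot.2 h5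
    simpa using this
  obtain ⟨i, hi⟩ := hα _ (by simp) (hG c' hb)
  rw [Polynomial.eval_mul, Polynomial.eval_comp] at hi
  simp only [Polynomial.eval_add, Polynomial.eval_X, Polynomial.eval_one, Polynomial.eval_C] at hi
  rcases mul_eq_zero.1 hi with h1 | h1
  · refine ⟨i + m, ?_⟩
    have e : (α : ℂ) + m - ((i + m : ℤ) : ℂ) = -1 := by
      push_cast
      linear_combination h1
    rw [e]
    exact h5
  · refine ⟨i, ?_⟩
    have e : (α : ℂ) + m - (i : ℂ) = (α : ℂ) - i + m := by ring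
    rw [Polynomial.eval_mul, e, h1, mul_zero]

/-- every level of a ray is an integer, is the one of a facet which contains a simplex which is not
B1 modulo integers, or has only simplices or B1-facets in a common direction -/
def HypVC (v : Fin r → Fin N → ℕ) (V : Finset (Fin r)) : Prop :=
  ∀ a : Fin N → ℕ, Pool.Agent.TH216.HD.IsRay v a → 0 < ordA v a → ordA v a ∣ ∑ i, a i ∨
    (∃ a' : Fin N → ℕ, 0 < ordA v a' ∧ NonB1 v True a' ∧ ∃ z : ℤ, lev v a = lev v a' + z) ∨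
    ComVL v V (lev v a)

/-- **The main theorem.** -/
theorem mainN {k : Type} [Field k] [Algebra k ℂ] {n κ r : ℕ} (hr : 0 < r)
    (v : Fin r → Fin (n + (κ + κ)) → ℕ) (hv : Function.Injective v) (hv0 : ∀ j, v j ≠ 0)
    (c : Fin r → k) (hc : ∀ j, c j ≠ 0) (hnd : NondegP v (fun j => algebraMap k ℂ (c j)))
    (V : Finset (Fin r)) (hV : Spans v V) (hG : GlobW v V) (hL : HypVC v V)
    (f : MvPolynomial (Fin n) k) (hf : f.totalDegree ≠ 0)
    (φ : MvPolynomial (Fin (n + (κ + κ))) k ≃ₐ[k] MvPolynomial (Fin (n + (κ + κ))) k)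
    (hφ : φ (stabK f κ) = spa v c) :
      ∃ S : Finset (ℤ × ℤ),
        (∀ p ∈ S, 0 < p.2 ∧ (p = (-1, 1) ∨ (∃ a : Fin (n + (κ + κ)) → ℕ, IsRay v a ∧
            0 < gord v a ∧
            p = (-((∑ i, a i : ℕ) : ℤ) + κ * (gord v a : ℤ), (gord v a : ℤ)))) ∧
          RZ f ((p.1 : ℂ) / p.2)) ∧ zetaMu f ∈ ratRingMu f S := by
  classical
  have hne : NeZero r := ⟨by omega⟩
  have hkc : CharZero k := RingHom.charZero (algebraMap k ℂ)
  set cC : Fin r → ℂ := fun j => algebraMap k ℂ (c j) with hcC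
  have hcz : ∀ j, cyz c j ≠ 0 := by
    intro j
    refine Fin.cases ?_ (fun j => ?_) j
    · simp [cyz]
    · exact hc j
  have hczC : (fun j => algebraMap k ℂ (cyz c j)) = cyz cC := by
    funext j
    refine Fin.cases ?_ (fun j => ?_) j
    · simp [cyz]
    · rfl
  have hnd2 : NondegP (exyz v) (fun j => algebraMap k ℂ (cyz c j)) := by
    rw [hczC]
    exact nondegP_yz hr hnd
  obtain ⟨S1, hS1, hz1⟩ := fourN hr v hv hv0 c hc hnd V hV hG
  obtain ⟨S2, hS2, hz2⟩ := fourN (Nat.succ_pos r) (exyz v) (exyz_inj hv) (exyz_ne hv0) (cyz c)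
    hcz hnd2 (Vyz V) (spans_yz hV) (globW_yz hv hG)
  -- the isomorphisms
  obtain ⟨ψ1, hψ1⟩ := Pool.Agent.Y405.MS.itr k f κ
  set ψ := ψ1.trans φ with hψ
  have e1 : ψ (itr f κ) = spa v c := by
    show φ (ψ1 (itr f κ)) = _
    rw [hψ1, hφ]
  obtain ⟨ψ', hψ'⟩ := Pool.Agent.Y405.MS.ext k ψ
  have e2 : ψ' (addyz (itr f κ)) = spa (exyz v) (cyz c) := by
    rw [hψ', e1, spa_addyz]
  -- the functional equations
  have hb1 : ∀ c' : Polynomial ℂ, IsBFunction (map (algebraMap k ℂ) f) ((Polynomial.X + 1) * c') →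
      UnitEq True (spa v cC)
        ((Polynomial.X + 1) * c'.comp (Polynomial.X + Polynomial.C (κ : ℂ))) := by
    intro c' hc'
    have h1 := bf_iso' ψ (bf_itr hf hc' κ)
    rw [e1, Pool.Agent.Y229.MS.map_spa] at h1
    exact unit_of (by omega) v hv hv0 _ hnd.compact _ h1
  have hb2 : ∀ c' : Polynomial ℂ, IsBFunction (map (algebraMap k ℂ) f) ((Polynomial.X + 1) * c') →
      UnitEq True (spa (exyz v) (fun j => algebraMap k ℂ (cyz c j)))
        ((Polynomial.X + 1) * c'.comp (Polynomial.X + Polynomial.C ((κ + 1 : ℕ) : ℂ))) := by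
    intro c' hc'
    have h1 := bf_iso' ψ' (f := addyz (itr f κ)) (bf_itr hf hc' (κ + 1))
    rw [e2, Pool.Agent.Y229.MS.map_spa] at h1
    exact unit_of (by omega) (exyz v) (exyz_inj hv) (exyz_ne hv0) _ hnd2.compact _ h1
  -- the root at the level of a ray of `v`
  have hray : ∀ a : Fin (n + (κ + κ)) → ℕ, IsRay v a → 0 < gord v a →
      (ComVL v V (((∑ i, a i : ℕ) : ℚ) / gord v a) →
        RZ f (((-((∑ i, a i : ℕ) : ℤ) + κ * (gord v a : ℤ) : ℤ) : ℂ) /
            ((gord v a : ℤ) : ℂ))) →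
      RZ f (((-((∑ i, a i : ℕ) : ℤ) + κ * (gord v a : ℤ) : ℤ) : ℂ) /
          ((gord v a : ℤ) : ℂ)) := by
    intro a ha hg hcom
    have hgC : ((gord v a : ℕ) : ℂ) ≠ 0 := by exact_mod_cast hg.ne'
    have ee : ((-((∑ i, a i : ℕ) : ℤ) + κ * (gord v a : ℤ) : ℤ) : ℂ) /
          ((gord v a : ℤ) : ℂ) = ((-(((∑ i, a i : ℕ) : ℚ) / gord v a) : ℚ) : ℂ) + κ := by
      push_cast
      field_simp
    have hgood : (gord v a ∣ ∑ i, a i ∨ ∃ a' : Fin (n + (κ + κ)) → ℕ, 0 < gord v a' ∧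
        NonB1 v True a' ∧ ∃ z : ℤ, lev v a = lev v a' + z) →
        RZ f (((-((∑ i, a i : ℕ) : ℤ) + κ * (gord v a : ℤ) : ℤ) : ℂ) /
          ((gord v a : ℤ) : ℂ)) := by
      intro h
      rw [ee]
      exact rz_of_pw hf κ hb1 _ (pw_of hr v hv hv0 _ hnd.compact a hg h)
    rcases hL a ha hg with h1 | h1 | h1
    · exact hgood (Or.inl h1)
    · exact hgood (Or.inr h1)
    · exact hcom h1
  set S : Finset (ℤ × ℤ) := insert (-1, 1) (S1.image (fun q => (q.1 + κ * q.2, q.2)) ∪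
    S2.image (fun q => (q.1 + ((κ + 1 : ℕ) : ℤ) * q.2, q.2))) with hS
  refine ⟨S, fun p hp => ?_, ?_⟩
  · rcases Finset.mem_insert.1 hp with rfl | hp
    · refine ⟨by norm_num, Or.inl rfl, fun b hb => ⟨0, ?_⟩⟩
      have h6 : (((-1 : ℤ) : ℂ) / ((1 : ℤ) : ℂ) - ((0 : ℤ) : ℂ)) = -1 := by norm_num
      simp only [h6]
      exact bf_neg_one hf hb
    · rcases Finset.mem_union.1 hp with hp | hp
      · obtain ⟨q, hq, rfl⟩ := Finset.mem_image.1 hp
        obtain ⟨a, ha, hg, hpw, rfl⟩ := hS1 q hq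
        refine ⟨Int.natCast_pos.2 hg, Or.inr ⟨a, ha, hg, rfl⟩, ?_⟩
        refine hray a ha hg fun hC => ?_
        have hgC : ((gord v a : ℕ) : ℂ) ≠ 0 := by exact_mod_cast hg.ne'
        have h1 := rz_of_pw hf κ hb1 _ (hpw hC.loc)
        have ee : ((-((∑ i, a i : ℕ) : ℤ) + κ * (gord v a : ℤ) : ℤ) : ℂ) /
          ((gord v a : ℤ) : ℂ) = ((-(((∑ i, a i : ℕ) : ℚ) / gord v a) : ℚ) : ℂ) + κ := by
          push_cast
          field_simp
        rw [ee]
        exact h1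
      · obtain ⟨q, hq, rfl⟩ := Finset.mem_image.1 hp
        obtain ⟨a', ha', hg', hpw, rfl⟩ := hS2 q hq
        obtain ⟨r1, r2, r3, -⟩ := ray_exyz hr v a' ha' hg'
        have hg : 0 < gord v (fx a') := by rw [r2]; exact hg'
        have hpe : ((-((∑ i, a' i : ℕ) : ℤ) + ((κ + 1 : ℕ) : ℤ) * (gord (exyz v) a' : ℤ),
            (gord (exyz v) a' : ℤ)) : ℤ × ℤ) =
            (-((∑ i, fx a' i : ℕ) : ℤ) + κ * (gord v (fx a') : ℤ), (gord v (fx a') : ℤ)) := by
          rw [r2, tot, r3, Prod.mk.injEq]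
          refine ⟨?_, rfl⟩
          push_cast
          ring
        have hR := hray (fx a') r1 hg fun hC => ?_
        · refine ⟨Int.natCast_pos.2 hg', Or.inr ⟨fx a', r1, hg, hpe⟩, ?_⟩
          have h8 := congrArg Prod.fst hpe
          have h9 := congrArg Prod.snd hpe
          simp only at h8 h9 ⊢
          rw [h8, h9]
          exact hR
        · have hgC : ((gord v (fx a') : ℕ) : ℂ) ≠ 0 := by exact_mod_cast hg.ne'
          have hgQ : ((gord v (fx a') : ℕ) : ℚ) ≠ 0 := by exact_mod_cast hg.ne'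
          have hlev : ((∑ i, a' i : ℕ) : ℚ) / gord (exyz v) a' =
              ((∑ i, fx a' i : ℕ) : ℚ) / gord v (fx a') + 1 := by
            rw [tot, r3, ← r2]
            push_cast
            field_simp
          have h1 := rz_of_pw hf (κ + 1) hb2 _ (hpw (by
            rw [hlev]
            exact (hC.yz hr).loc))
          have ee : ((-((∑ i, fx a' i : ℕ) : ℤ) + κ * (gord v (fx a') : ℤ) : ℤ) : ℂ) /
            ((gord v (fx a') : ℤ) : ℂ) =
            ((-(((∑ i, a' i : ℕ) : ℚ) / gord (exyz v) a') : ℚ) : ℂ) + ((κ + 1 : ℕ) : ℂ) := by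
            rw [hlev]
            push_cast
            field_simp
            ring
          rw [ee]
          exact h1
  · have p1 : ∀ p ∈ S1, 0 < p.2 := by
      intro p hp
      obtain ⟨a, -, hg, -, rfl⟩ := hS1 p hp
      exact Int.natCast_pos.2 hg
    have p2 : ∀ p ∈ S2, 0 < p.2 := by
      intro p hp
      obtain ⟨a, -, hg, -, rfl⟩ := hS2 p hp
      exact Int.natCast_pos.2 hg
    rw [← e1] at hz1
    rw [← e2] at hz2
    have z1 := hz1.iso p1 (by ring) ψ.symm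
    have z2 := hz2.iso p2 (by ring) ψ'.symm
    rw [AlgEquiv.symm_apply_apply] at z1 z2
    have z3 := descendE f κ S1 S2 p1 p2 z1 z2
    refine rat_mono ?_ (zeta_of_fst z3)
    rintro p (rfl | ⟨q, hq, rfl⟩ | ⟨q, hq, rfl⟩)
    · exact Finset.mem_coe.2 (Finset.mem_insert_self _ _)
    · exact Finset.mem_coe.2 (Finset.mem_insert_of_mem (Finset.mem_union_left _
        (Finset.mem_image_of_mem (fun q : ℤ × ℤ => (q.1 + (κ : ℤ) * q.2, q.2)) hq)))
    · exact Finset.mem_coe.2 (Finset.mem_insert_of_mem (Finset.mem_union_right _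
        (Finset.mem_image_of_mem (fun q : ℤ × ℤ => (q.1 + ((κ + 1 : ℕ) : ℤ) * q.2, q.2)) hq)))

/-- the weights of the monomials -/
theorem weight_spa {k : Type} [Field k] {v : Fin r → Fin N → ℕ} (c : Fin r → k)
    (a : Fin N → ℕ) : ∀ w ∈ (spa v c).support, gord v a ≤ ∑ i, a i * w i := by
  classical
  intro w hw
  have h2 : coeff w (spa v c) ≠ 0 := mem_support_iff.1 hw
  unfold spa at h2
  rw [coeff_sum] at h2
  obtain ⟨j, -, hj⟩ := Finset.exists_ne_zero_of_sum_ne_zero h2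
  have h3 : (C (c j) * ∏ i, X i ^ v j i : MvPolynomial (Fin N) k) =
      monomial (Finsupp.equivFunOnFinite.symm (v j)) (c j) := by
    rw [monomial_eq, Finsupp.prod_fintype _ _ fun i => pow_zero _]
    rfl
  rw [h3, coeff_monomial] at hj
  have h4 : Finsupp.equivFunOnFinite.symm (v j) = w := by
    by_contra hcon
    rw [if_neg hcon] at hj
    exact hj rfl
  rw [← h4]
  exact Pool.Agent.W803.SM.gord_le v a j

/-- **Stably nondegenerate polynomials.** -/
theorem res {k : Type} [Field k] [Algebra k ℂ] {n κ r : ℕ} (hr : 0 < r)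
    (v : Fin r → Fin (n + (κ + κ)) → ℕ) (hv : Function.Injective v) (hv0 : ∀ j, v j ≠ 0)
    (c : Fin r → k) (hc : ∀ j, c j ≠ 0) (hnd : NondegP v (fun j => algebraMap k ℂ (c j)))
    (V : Finset (Fin r)) (hV : Spans v V) (hG : GlobW v V) (hL : HypVC v V) :
    (∀ f : MvPolynomial (Fin n) k, f.totalDegree ≠ 0 →
      ∀ φ : MvPolynomial (Fin (n + (κ + κ))) k ≃ₐ[k] MvPolynomial (Fin (n + (κ + κ))) k,
      φ (stabK f κ) = spa v c →
      ∃ S : Finset (ℤ × ℤ), (∀ p ∈ S, 0 < p.2 ∧ ∀ b : Polynomial ℂ,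
        IsBFunction (map (algebraMap k ℂ) f) b → ∃ i : ℤ, b.eval ((p.1 : ℂ) / p.2 - i) = 0) ∧
        zetaMu f ∈ ratRingMu f S) ∧
    (∀ γ : Fin κ → k, (∀ i, γ i ≠ 0) → ∀ (p : Fin κ → MvPolynomial (Fin n) k)
      (Φ : MvPolynomial (Fin (n + κ)) k), gph γ p Φ = spa v c →
      ∀ f : MvPolynomial (Fin n) k, f = aeval (Fin.append X fun i => C (γ i)⁻¹ * p i) Φ →
      f.totalDegree ≠ 0 →
      ∃ S : Finset (ℤ × ℤ), (∀ p ∈ S, p.1 < 0) ∧ (∀ p ∈ S, 0 < p.2 ∧ ∀ b : Polynomial ℂ,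
        IsBFunction (map (algebraMap k ℂ) f) b → ∃ i : ℤ, b.eval ((p.1 : ℂ) / p.2 - i) = 0) ∧
        zetaMu f ∈ ratRingMu f S) := by
  have H := mainN hr v hv hv0 c hc hnd V hV hG hL
  refine ⟨fun f hf φ hφ => ?_, fun γ hγ p Φ hGp f hff hf => ?_⟩
  · obtain ⟨S, hS, hz⟩ := H f hf φ hφ
    exact ⟨S, fun p hp => ⟨(hS p hp).1, (hS p hp).2.2⟩, hz⟩
  · obtain ⟨φ, hφ⟩ := Pool.Agent.Y925.MS.gk k γ hγ p Φ
    rw [← hff] at hφ
    have hφ' : φ (stabK f κ) = spa v c := by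
      rw [hφ]
      exact hGp
    obtain ⟨S, hS, hz⟩ := H f hf φ hφ'
    refine ⟨S, fun q hq => ?_, fun p hp => ⟨(hS p hp).1, (hS p hp).2.2⟩, hz⟩
    rcases (hS q hq).2.1 with rfl | ⟨a, ha, hg, rfl⟩
    · norm_num
    · have hf0 : aeval (Fin.append X fun i => C (γ i)⁻¹ * p i) Φ ≠
          (0 : MvPolynomial (Fin n) k) := by
        rw [← hff]
        rintro rfl
        exact hf totalDegree_zero
      have h1 := ray_pos' γ hγ p Φ hf0 a _ hg (by
        rw [hGp]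
        exact weight_spa c a)
      show -((∑ i, a i : ℕ) : ℤ) + κ * (gord v a : ℤ) < 0
      have h2 : ((κ * gord v a : ℕ) : ℤ) < ((∑ i, a i : ℕ) : ℤ) := by
        exact_mod_cast h1
      push_cast at h2 ⊢
      linarith

end Pool.Agent.K6.H7.UO
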