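import Pool.Agent.K6.H7.UF.Pos
import Pool.Agent.Y228.GN.Nv

set_option autoImplicit false

/-! # Nondegenerate polynomials: `G + y z` -/

namespace Pool.Agent.K6.H7.UO

open MvPolynomial
open Pool.Agent.W425.ND (spa onFace)
open Pool.Agent.W426.SM (gord IsRay face)
open Pool.Agent.W803.SM (gord_le exists_gord)
open Pool.Agent.Y229.MS (exyz cyz)
open Pool.Agent.Y228.GN (NondegP GlobW)
open Pool.Agent.TH216.HD (Spans ordA lev OnFace)
open Pool.Agent.TH216.HDNL
open Pool.Agent.K6.H7.UF (ray_exyz fx ay az tot face_zero face_succ sum_zero sum_succ)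

variable {r N : ℕ}

theorem onFace_succ (hr : 0 < r) (v : Fin r → Fin N → ℕ) (w : Fin (N + 2) → ℝ)
    (h0 : ¬ onFace (exyz v) w 0) (j : Fin r) :
    onFace (exyz v) w j.succ ↔ onFace v (fun i => w (Fin.castAdd 2 i)) j := by
  have e : ∀ j : Fin r, ∑ i, w i * (exyz v j.succ i : ℝ) =
      ∑ i, w (Fin.castAdd 2 i) * (v j i : ℝ) := fun j => sum_succ v w j
  constructor
  · intro h j'
    have h1 := h j'.succ
    rw [e, e] at h1
    exact h1
  · intro h j'
    refine Fin.cases ?_ (fun j' => ?_) j'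
    · unfold onFace at h0
      push Not at h0
      obtain ⟨j2, hj2⟩ := h0
      rcases Fin.eq_zero_or_eq_succ j2 with rfl | ⟨j2, rfl⟩
      · exact absurd hj2 (lt_irrefl _)
      · rw [e] at hj2 ⊢
        exact (h j2).trans hj2.le
    · rw [e, e]
      exact h j'

/-- **Nondegeneracy of `G + y z`.** -/
theorem nondegP_yz (hr : 0 < r) {v : Fin r → Fin N → ℕ} {a : Fin r → ℂ} (h : NondegP v a) :
    NondegP (exyz v) (cyz a) := by
  classical
  intro w hw z hz h12
  obtain ⟨h1, h2⟩ := h12
  by_cases h0 : onFace (exyz v) w 0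
  · have h3 := h2 (Fin.natAdd N 0)
    rw [Fin.sum_univ_succ, if_pos h0, Finset.sum_eq_zero, add_zero] at h3
    · rcases mul_eq_zero.1 h3 with h4 | h4
      · simp [cyz, exyz] at h4
      · exact (Finset.prod_ne_zero_iff.2 fun i _ => pow_ne_zero _ (hz i)) h4
    · intro j _
      have e : exyz v j.succ (Fin.natAdd N 0) = 0 := by simp [exyz]
      rw [e]
      simp
  · refine h (fun i => w (Fin.castAdd 2 i)) (fun i => hw _) (fun i => z (Fin.castAdd 2 i))
      (fun i => hz _) ⟨?_, fun i => ?_⟩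
    · rw [Fin.sum_univ_succ, if_neg h0, zero_add] at h1
      refine Eq.trans (Finset.sum_congr rfl fun j _ => ?_) h1
      rw [if_congr (onFace_succ hr v w h0 j) rfl rfl]
      have e : ∏ i, z i ^ exyz v j.succ i = ∏ i, z (Fin.castAdd 2 i) ^ v j i := by
        rw [Fin.prod_univ_add]
        simp [exyz]
      rw [e]
      rfl
    · have h3 := h2 (Fin.castAdd 2 i)
      rw [Fin.sum_univ_succ, if_neg h0, zero_add] at h3
      refine Eq.trans (Finset.sum_congr rfl fun j _ => ?_) h3
      rw [if_congr (onFace_succ hr v w h0 j) rfl rfl]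
      have e : ∏ i, z i ^ exyz v j.succ i = ∏ i, z (Fin.castAdd 2 i) ^ v j i := by
        rw [Fin.prod_univ_add]
        simp [exyz]
      have e2 : exyz v j.succ (Fin.castAdd 2 i) = v j i := by simp [exyz]
      rw [e, e2]
      rfl

/-- the vertices of `G + y z` -/
def Vyz (V : Finset (Fin r)) : Finset (Fin (r + 1)) := insert 0 (V.map (Fin.succEmb r))

theorem mem_Vyz_succ {V : Finset (Fin r)} {j : Fin r} : j.succ ∈ Vyz V ↔ j ∈ V := by
  unfold Vyz
  rw [Finset.mem_insert]
  constructor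
  · rintro (h | h)
    · exact absurd h (Fin.succ_ne_zero j)
    · obtain ⟨j', h1, h2⟩ := Finset.mem_map.1 h
      have h3 : j' = j := Fin.succ_injective _ h2
      exact h3 ▸ h1
  · exact fun h => Or.inr (Finset.mem_map.2 ⟨j, h, rfl⟩)

theorem zero_mem_Vyz {V : Finset (Fin r)} : (0 : Fin (r + 1)) ∈ Vyz V :=
  Finset.mem_insert_self _ _

theorem spans_yz {v : Fin r → Fin N → ℕ} {V : Finset (Fin r)} (hV : Spans v V) :
    Spans (exyz v) (Vyz V) := by
  classical
  intro j
  rcases Fin.eq_zero_or_eq_succ j with rfl | ⟨j, rfl⟩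
  · refine ⟨fun k => if k = 0 then 1 else 0, fun k => ?_, fun k hk => ?_, ?_, fun i => ?_⟩
    · simp only
      split_ifs
      · exact zero_le_one
      · exact le_rfl
    · simp only
      rw [if_neg]
      rintro rfl
      exact hk zero_mem_Vyz
    · simp
    · simp
  · obtain ⟨l, h1, h2, h3, h4⟩ := hV j
    refine ⟨Fin.cons 0 l, fun k => ?_, fun k hk => ?_, ?_, fun i => ?_⟩
    · refine Fin.cases ?_ (fun k => ?_) k
      · rw [Fin.cons_zero]
      · rw [Fin.cons_succ]
        exact h1 k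
    · rcases Fin.eq_zero_or_eq_succ k with rfl | ⟨k, rfl⟩
      · exact absurd zero_mem_Vyz hk
      · rw [Fin.cons_succ]
        exact h2 k fun h => hk (mem_Vyz_succ.2 h)
    · rw [Fin.sum_univ_succ]
      simp only [Fin.cons_zero, Fin.cons_succ, zero_add]
      exact h3
    · rw [Fin.sum_univ_succ]
      simp only [Fin.cons_zero, Fin.cons_succ, zero_mul, zero_add]
      refine Fin.addCases (fun i => ?_) (fun s => ?_) i
      · simp only [exyz, Fin.cons_succ, Fin.append_left]
        exact h4 i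
      · simp [exyz]

theorem globW_yz {v : Fin r → Fin N → ℕ} (hv : Function.Injective v) {V : Finset (Fin r)}
    (hG : GlobW v V) : GlobW (exyz v) (Vyz V) := by
  classical
  intro J hJ hvan j hj l hl hone
  rcases Fin.eq_zero_or_eq_succ l with rfl | ⟨l, rfl⟩
  · exact absurd zero_mem_Vyz hl
  have hlV : l ∉ V := fun h => hl (mem_Vyz_succ.2 h)
  rcases Fin.eq_zero_or_eq_succ j with rfl | ⟨j, rfl⟩
  · obtain ⟨i, hi, h1⟩ := hone
    refine ⟨i, hi, ?_⟩
    rw [h1]
    revert hi h1
    refine Fin.addCases (fun i => ?_) (fun s => ?_) i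
    · intro _ h1
      simp [exyz] at h1
    · intro _ _
      simp [exyz]
  · have hjV : j ∈ V := mem_Vyz_succ.1 hj
    obtain ⟨i, hi, h1⟩ := hone
    have hx : ∀ (j' : Fin r) (i' : Fin N), exyz v j'.succ (Fin.castAdd 2 i') = v j' i' := by
      intro j' i'
      simp [exyz]
    have hs : ∀ (j' : Fin r) (s : Fin 2), exyz v j'.succ (Fin.natAdd N s) = 0 := by
      intro j' s
      simp [exyz]
    set J0 : Finset (Fin N) := Finset.univ.filter fun i => Fin.castAdd 2 i ∈ J with hJ0
    by_cases hJu : J0 = Finset.univ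
    · have hne : l ≠ j := fun h => hlV (h ▸ hjV)
      obtain ⟨i', hi'⟩ : ∃ i', v l i' ≠ v j i' := by
        by_contra hcon
        push Not at hcon
        exact hne (hv (funext hcon))
      have hm : i' ∈ J0 := by rw [hJu]; exact Finset.mem_univ _
      refine ⟨Fin.castAdd 2 i', (Finset.mem_filter.1 hm).2, ?_⟩
      rw [hx, hx]
      exact hi'
    · obtain ⟨i', hm, hi'⟩ := hG J0 hJu (fun j' => by
        obtain ⟨i2, hi2, h2⟩ := hvan j'.succ
        revert hi2 h2
        refine Fin.addCases (fun i2 => ?_) (fun s => ?_) i2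
        · intro hi2 h2
          rw [hx] at h2
          exact ⟨i2, Finset.mem_filter.2 ⟨Finset.mem_univ _, hi2⟩, h2⟩
        · intro _ h2
          exact absurd (hs j' s) h2) j hjV l hlV (by
        revert hi h1
        refine Fin.addCases (fun i => ?_) (fun s => ?_) i
        · intro hi h1
          rw [hx] at h1
          exact ⟨i, Finset.mem_filter.2 ⟨Finset.mem_univ _, hi⟩, h1⟩
        · intro _ h1
          rw [hs] at h1
          exact absurd h1 (by norm_num))
      refine ⟨Fin.castAdd 2 i', (Finset.mem_filter.1 hm).2, ?_⟩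
      rw [hx, hx]
      exact hi'

/-- The facets with candidate pole `-σ` are simplices or B1 in a common direction. -/
def ComVL (v : Fin r → Fin N → ℕ) (V : Finset (Fin r)) (σ : ℚ) : Prop :=
  ∃ i, ∀ a : Fin N → ℕ, Pool.Agent.TH216.HD.IsRay v a → 0 < ordA v a → lev v a = σ →
    SimpVL v V a ∨ B1VL v V i a

theorem ComVL.loc {v : Fin r → Fin N → ℕ} {V : Finset (Fin r)} {σ : ℚ} (h : ComVL v V σ) :
    LocVL v V σ := by
  obtain ⟨i, hi⟩ := h
  exact fun _ _ => ⟨i, fun a ha hg _ hs => hi a ha hg hs⟩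

/-- **The condition for `G + y z`.** -/
theorem ComVL.yz (hr : 0 < r) {v : Fin r → Fin N → ℕ} {V : Finset (Fin r)} {σ : ℚ}
    (hC : ComVL v V σ) : ComVL (exyz v) (Vyz V) (σ + 1) := by
  classical
  obtain ⟨i, hi⟩ := hC
  refine ⟨Fin.castAdd 2 i, fun a ha hg hs => ?_⟩
  obtain ⟨h1, h2, h3, h4⟩ := ray_exyz hr v a ha hg
  have hs' : ((∑ x, a x : ℕ) : ℚ) / gord (exyz v) a = σ + 1 := hs
  have hlev : ((∑ x, fx a x : ℕ) : ℚ) / gord v (fx a) = σ := by
    rw [tot, h3, ← h2] at hs'
    have h5 : ((gord v (fx a) : ℕ) : ℚ) ≠ 0 := by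
      rw [h2]
      exact_mod_cast hg.ne'
    push_cast at hs' ⊢
    rw [add_div, div_self h5] at hs'
    linarith
  have hface : ∀ j : Fin r, face (exyz v) a j.succ ↔ face v (fx a) j := by
    intro j
    rw [face_succ, ← h2]
    rfl
  have hg' : 0 < gord v (fx a) := by rw [h2]; exact hg
  rcases hi (fx a) h1 hg' hlev with hS | ⟨hai, j0, hj0, hf0, hv1, hu⟩
  · left
    intro w hw0 hw1
    have hwz : w 0 = 0 := by
      have hg2 : 0 < gord (exyz v) a := hg
      rcases Nat.eq_zero_or_pos (ay a) with h5 | h5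
      · have h6 : a (Fin.natAdd N 1) ≠ 0 := by
          have : az a ≠ 0 := by omega
          exact this
        have h7 := hw1 _ h6
        rw [Fin.sum_univ_succ] at h7
        simpa [exyz] using h7
      · have h7 := hw1 (Fin.natAdd N 0) (Nat.pos_iff_ne_zero.1 h5)
        rw [Fin.sum_univ_succ] at h7
        simpa [exyz] using h7
    have h8 := hS (fun j => w j.succ) (fun j hj => hw0 _ fun h9 =>
        hj ⟨mem_Vyz_succ.1 h9.1, (hface j).1 h9.2⟩)
      (fun i hi => by
        have h7 := hw1 (Fin.castAdd 2 i) hi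
        rw [Fin.sum_univ_succ, hwz, zero_mul, zero_add] at h7
        simpa [exyz] using h7)
    intro j
    refine Fin.cases ?_ (fun j => ?_) j
    · exact hwz
    · exact h8 j
  · right
    refine ⟨hai, j0.succ, mem_Vyz_succ.2 hj0, (hface j0).2 hf0, ?_, fun j hjV hj hne => ?_⟩
    · simpa [exyz] using hv1
    · rcases Fin.eq_zero_or_eq_succ j with rfl | ⟨j, rfl⟩
      · simp [exyz]
      · have := hu j (mem_Vyz_succ.1 hjV) ((hface j).1 hj) (fun h => hne (by rw [h]))
        simpa [exyz] using this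

end Pool.Agent.K6.H7.UO
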